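import Mathlib

set_option autoImplicit false

namespace Pool.Agent.Results.MP_a5c736_co.DP

def IsCover {V : Type} (G : SimpleGraph V) (m : ℕ) (H : SimpleGraph (V × Fin m)) : Prop :=
  (∀ v i j, i ≠ j → H.Adj (v, i) (v, j)) ∧
  (∀ u v i j j', u ≠ v → H.Adj (u, i) (v, j) → H.Adj (u, i) (v, j') → j = j') ∧
  (∀ u v i j, u ≠ v → H.Adj (u, i) (v, j) → G.Adj u v)

lemma greedy {n k : ℕ} (G : SimpleGraph (Fin n)) (H : SimpleGraph (Fin n × Fin (k + 1)))
    (hH : IsCover G (k + 1) H)
    (hd : ∀ v, ∃ S : Finset (Fin n), S.card ≤ k ∧ ∀ u, u < v → G.Adj u v → u ∈ S) (r : ℕ) :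
    ∃ c : Fin n → Fin (k + 1), ∀ u v, u.val < r → v.val < r → ¬ H.Adj (u, c u) (v, c v) := by
  classical
  induction r with
  | zero => exact ⟨fun _ => 0, fun u v h => absurd h (Nat.not_lt_zero _)⟩
  | succ r ih =>
    obtain ⟨c, hc⟩ := ih
    by_cases hr : r < n
    swap
    · exact ⟨c, fun u v _ _ => hc u v (by have := u.2; omega) (by have := v.2; omega)⟩
    let w : Fin n := ⟨r, hr⟩
    obtain ⟨S, hS, hS'⟩ := hd w
    let b : Fin n → Fin (k + 1) := fun u => if h : ∃ j, H.Adj (u, c u) (w, j) then h.choose else 0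
    obtain ⟨j, -, hj⟩ := Finset.exists_mem_notMem_of_card_lt_card (s := S.image b)
      (t := Finset.univ) (by
        have := Finset.card_image_le (s := S) (f := b)
        simp; omega)
    have key : ∀ u : Fin n, u.val < r → ¬ H.Adj (u, c u) (w, j) := fun u hu h => by
      have huw : u < w := hu
      have h1 : ∃ j, H.Adj (u, c u) (w, j) := ⟨j, h⟩
      refine hj (Finset.mem_image.2 ⟨u, hS' u huw (hH.2.2 _ _ _ _ huw.ne h), ?_⟩)
      simp only [b, dif_pos h1]
      exact hH.2.1 _ _ _ _ _ huw.ne h1.choose_spec h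
    refine ⟨Function.update c w j, fun u v hu hv => ?_⟩
    by_cases e1 : u = w <;> by_cases e2 : v = w
    · subst e1; subst e2; exact H.irrefl
    · have : v.val ≠ r := fun h => e2 (Fin.ext h)
      rw [e1, Function.update_self, Function.update_of_ne e2]
      exact fun h => key v (by omega) h.symm
    · have : u.val ≠ r := fun h => e1 (Fin.ext h)
      rw [e2, Function.update_self, Function.update_of_ne e1]
      exact key u (by omega)
    · have : u.val ≠ r := fun h => e1 (Fin.ext h)
      have : v.val ≠ r := fun h => e2 (Fin.ext h)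
      rw [Function.update_of_ne e1, Function.update_of_ne e2]
      exact hc u v (by omega) (by omega)

def G0 (t : ℕ) : SimpleGraph (Fin (2 * t + 1)) :=
  SimpleGraph.fromRel fun u v => (u.val < t ∧ v.val < 2 * t) ∨ (u.val = 2 * t ∧ t ≤ v.val)

def cov {V A : Type} [Add A] (G : SimpleGraph V) (w : V → V → A) : SimpleGraph (V × A) where
  Adj x y := (x.1 = y.1 ∧ x.2 ≠ y.2) ∨ (G.Adj x.1 y.1 ∧ x.2 + w x.1 y.1 = y.2 + w y.1 x.1)
  symm := ⟨fun _ _ h => h.imp (fun h => ⟨h.1.symm, h.2.symm⟩) fun h => ⟨h.1.symm, h.2.symm⟩⟩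
  loopless := ⟨fun _ h => h.elim (fun h => h.2 rfl) fun h => G.irrefl h.1⟩

lemma cov_ok {V : Type} (G : SimpleGraph V) (m : ℕ) (w : V → V → Fin (m + 1)) :
    IsCover G (m + 1) (cov G w) := by
  refine ⟨fun v i j h => Or.inl ⟨rfl, h⟩, ?_, ?_⟩
  · rintro u v i j j' huv (h | h) (h' | h')
    · exact absurd h.1 huv
    · exact absurd h.1 huv
    · exact absurd h'.1 huv
    · exact add_right_cancel (h.2.symm.trans h'.2)
  · rintro u v i j huv (h | h)
    · exact absurd h.1 huv
    · exact h.1

lemma dom {V A : Type} [DecidableEq V] [Add A] [Inhabited A] (G : SimpleGraph V) (w : V → V → A)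
    (s : Finset (V × A)) (hs : (cov G w).IsIndepSet s) :
    ∃ (D : Finset V) (c : V → A), D.card = s.card ∧
      ∀ u ∈ D, ∀ v ∈ D, G.Adj u v → c u + w u v ≠ c v + w v u := by
  classical
  refine ⟨s.image Prod.fst, fun v => if h : ∃ a, (v, a) ∈ s then h.choose else default,
    Finset.card_image_of_injOn fun x hx y hy h => ?_, fun u hu v hv huv e => ?_⟩
  · by_contra hn
    exact hs hx hy hn (Or.inl ⟨h, fun e => hn (Prod.ext h e)⟩)
  · have h1 : ∃ a, (u, a) ∈ s := by simpa using hu
    have h2 : ∃ a, (v, a) ∈ s := by simpa using hv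
    simp only [dif_pos h1, dif_pos h2] at e
    exact hs h1.choose_spec h2.choose_spec (fun h => huv.ne (congrArg Prod.fst h))
      (Or.inr ⟨huv, e⟩)

lemma clq {V : Type} {m : ℕ} (K : Finset V) (c : V → Fin m)
    (h : ∀ u ∈ K, ∀ v ∈ K, u ≠ v → c u ≠ c v) : K.card ≤ m := by
  have := Finset.card_le_card_of_injOn (s := K) (t := Finset.univ) c (fun _ _ => by simp)
    fun u hu v hv e => by_contra fun hn => h u hu v hv hn e
  simpa using this

lemma card_lt (n t : ℕ) (h : t ≤ n) :
    (Finset.univ.filter fun v : Fin n => v.val < t).card = t := by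
  rw [Fin.card_filter_val_lt]; omega

def wt (s : ℕ) (u v : Fin (2 * (s + 1) + 1)) : Fin (s + 1) :=
  if v.val = 2 * (s + 1) then Fin.ofNat _ u.val else 0

lemma bad (s : ℕ) (hs : 1 ≤ s) (D : Finset (Fin (2 * (s + 1) + 1)))
    (c : Fin (2 * (s + 1) + 1) → Fin (s + 1))
    (hc : ∀ u ∈ D, ∀ v ∈ D, (G0 (s + 1)).Adj u v → c u + wt s u v ≠ c v + wt s v u) :
    D.card < 2 * (s + 1) := by
  by_contra hD
  have one : ∀ x y, x ∉ D → y ∉ D → x = y := fun x y hx hy => by
    have : Dᶜ.card ≤ 1 := by rw [Finset.card_compl]; simp; omega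
    exact Finset.card_le_one.1 this x (Finset.mem_compl.2 hx) y (Finset.mem_compl.2 hy)
  let C := Finset.univ.filter fun v : Fin (2 * (s + 1) + 1) => v.val < s + 1
  have hC : C.card = s + 1 := card_lt _ _ (by omega)
  have adj : ∀ u ∈ D, ∀ v ∈ D, u.val < s + 1 → v.val < 2 * (s + 1) → u ≠ v → c u ≠ c v := by
    intro u hu v hv h1 h2 h3 e
    refine hc u hu v hv ((SimpleGraph.fromRel_adj _ _ _).2 ⟨h3, Or.inl (Or.inl ⟨h1, h2⟩)⟩) ?_
    rw [wt, wt, if_neg (by omega), if_neg (by omega), e]
  by_cases h1 : C ⊆ D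
  · obtain ⟨a, ha, ha1, ha2⟩ : ∃ a ∈ D, s + 1 ≤ a.val ∧ a.val < 2 * (s + 1) := by
      by_contra hn
      have := one ⟨s + 1, by omega⟩ ⟨s + 2, by omega⟩
        (fun h => hn ⟨_, h, le_rfl, by simp only; omega⟩)
        (fun h => hn ⟨_, h, by simp only; omega, by simp only; omega⟩)
      simp at this
    have := clq (insert a C) c (by
      intro u hu v hv huv
      rw [Finset.mem_insert] at hu hv
      rcases hu with rfl | hu <;> rcases hv with rfl | hv
      · exact absurd rfl huv
      · exact (adj v (h1 hv) u ha (Finset.mem_filter.1 hv).2 ha2 huv.symm).symm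
      · exact adj u (h1 hu) v ha (Finset.mem_filter.1 hu).2 ha2 huv
      · exact adj u (h1 hu) v (h1 hv) (Finset.mem_filter.1 hu).2
          (by have := (Finset.mem_filter.1 hv).2; omega) huv)
    rw [Finset.card_insert_of_notMem (by simp [C]; omega), hC] at this
    omega
  · obtain ⟨x, hx, hxD⟩ := Finset.not_subset.1 h1
    have hx' : x.val < s + 1 := (Finset.mem_filter.1 hx).2
    have mem : ∀ v, v ≠ x → v ∈ D := fun v hv => by_contra fun h => hv (one v x h hxD)
    have same : ∀ a b : Fin (2 * (s + 1) + 1), s + 1 ≤ a.val → a.val < 2 * (s + 1) →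
        s + 1 ≤ b.val → b.val < 2 * (s + 1) → c a = c b := by
      intro a b a1 a2 b1 b2
      by_contra hab
      have ha : a ∈ D := mem a fun e => by subst e; omega
      have hb : b ∈ D := mem b fun e => by subst e; omega
      have hE : ∀ v ∈ C.erase x, v ∈ D ∧ v.val < s + 1 := fun v hv =>
        ⟨mem v (Finset.ne_of_mem_erase hv), (Finset.mem_filter.1 (Finset.mem_of_mem_erase hv)).2⟩
      have := clq (insert a (insert b (C.erase x))) c (by
        intro u hu v hv huv
        simp only [Finset.mem_insert] at hu hv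
        rcases hu with rfl | rfl | hu <;> rcases hv with rfl | rfl | hv
        · exact absurd rfl huv
        · exact hab
        · exact (adj v (hE v hv).1 u ha (hE v hv).2 a2 huv.symm).symm
        · exact Ne.symm hab
        · exact absurd rfl huv
        · exact (adj v (hE v hv).1 u hb (hE v hv).2 b2 huv.symm).symm
        · exact adj u (hE u hu).1 v ha (hE u hu).2 a2 huv
        · exact adj u (hE u hu).1 v hb (hE u hu).2 b2 huv
        · exact adj u (hE u hu).1 v (hE v hv).1 (hE u hu).2 (by have := (hE v hv).2; omega) huv)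
      rw [Finset.card_insert_of_notMem (by
          simp only [Finset.mem_insert, not_or]
          exact ⟨fun e => hab (by rw [e]), fun h => by have := (hE a h).2; omega⟩),
        Finset.card_insert_of_notMem (fun h => by have := (hE b h).2; omega),
        Finset.card_erase_of_mem hx, hC] at this
      omega
    let e : Fin (2 * (s + 1) + 1) := ⟨2 * (s + 1), by omega⟩
    let a0 : Fin (2 * (s + 1) + 1) := ⟨s + 1, by omega⟩
    let d : Fin (s + 1) := c e - c a0
    have hd := d.2
    let a : Fin (2 * (s + 1) + 1) := ⟨s + 1 + d.val, by omega⟩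
    have a2 : a.val < 2 * (s + 1) := by simp only [a]; omega
    refine hc a (mem a fun h => by rw [← h] at hx'; simp [a] at hx'; omega) e
      (mem e fun h => by rw [← h] at hx'; simp [e] at hx'; omega)
      ((SimpleGraph.fromRel_adj _ _ _).2 ⟨fun h => by rw [h] at a2; simp [e] at a2,
        Or.inr (Or.inr ⟨rfl, by simp [a]⟩)⟩) ?_
    have h2 : wt s a e = d := by
      rw [wt, if_pos rfl]
      ext
      simp [a, Nat.mod_eq_of_lt hd]
    have h3 : wt s e a = 0 := by rw [wt, if_neg a2.ne]
    rw [h2, h3, same a a0 (by simp [a]) a2 le_rfl (by simp only [a0]; omega)]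
    simp [d]

theorem result (k : ℕ) (hk : 3 ≤ k) : ∃ (n : ℕ) (G : SimpleGraph (Fin n)), 0 < n ∧
    IsLeast {m : ℕ | ∀ H, IsCover G m H → ∃ s, H.IsNIndepSet n s} k ∧
    ∃ t : ℕ, 1 ≤ t ∧ t ≤ k ∧ ∃ H, IsCover G t H ∧ k * H.indepNum < t * n := by
  classical
  obtain ⟨s, rfl⟩ : ∃ s, k = s + 2 := ⟨k - 2, by omega⟩
  refine ⟨2 * (s + 1) + 1, G0 (s + 1), by omega, ⟨fun H hH => ?_, fun m hm => ?_⟩, s + 1, by omega,
    by omega, cov _ (wt s), cov_ok _ _ _, ?_⟩
  · obtain ⟨c, hc⟩ := greedy (G0 (s + 1)) H hH (fun v => by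
      by_cases hv : v.val = 2 * (s + 1)
      · refine ⟨(Finset.univ.filter fun u : Fin (2 * (s + 1) + 1) => u.val < 2 * (s + 1)) \
          (Finset.univ.filter fun u => u.val < s + 1), ?_, fun u hu h => ?_⟩
        · rw [Finset.card_sdiff_of_subset (fun u hu => by simp at hu ⊢; omega),
            card_lt _ _ (by omega), card_lt _ _ (by omega)]
          omega
        · have hu : u.val < v.val := hu
          have := ((SimpleGraph.fromRel_adj _ _ _).1 h).2
          simp; omega
      · refine ⟨Finset.univ.filter fun u => u.val < s + 1, (card_lt _ _ (by omega)).le,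
          fun u hu h => ?_⟩
        have hu : u.val < v.val := hu
        have := ((SimpleGraph.fromRel_adj _ _ _).1 h).2
        have := v.2
        simp; omega) (2 * (s + 1) + 1)
    refine ⟨Finset.univ.image fun v => (v, c v), ?_, ?_⟩
    · intro x hx y hy _
      obtain ⟨u, -, rfl⟩ := Finset.mem_image.1 hx
      obtain ⟨v, -, rfl⟩ := Finset.mem_image.1 hy
      exact hc u v u.2 v.2
    · rw [Finset.card_image_of_injective _ fun u v h => congrArg Prod.fst h]
      simp
  · rcases m with _ | m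
    · obtain ⟨S, hS⟩ := hm ⊥ ⟨fun _ i => i.elim0, fun _ _ i => i.elim0, fun _ _ i => i.elim0⟩
      have := hS.2
      rw [Finset.eq_empty_of_isEmpty S] at this
      simp at this
    obtain ⟨S, hS⟩ := hm (cov _ fun _ _ => 0) (cov_ok _ _ _)
    obtain ⟨D, c, hD, hc⟩ := dom _ _ S hS.1
    have hD' : D = Finset.univ := Finset.eq_univ_of_card _ (by rw [hD, hS.2]; simp)
    subst hD'
    have := clq (Finset.univ.filter fun v : Fin (2 * (s + 1) + 1) => v.val < s + 2) c (by
      intro u hu v hv huv e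
      have hu := (Finset.mem_filter.1 hu).2
      have hv := (Finset.mem_filter.1 hv).2
      have : u.val ≠ v.val := fun h => huv (Fin.ext h)
      exact hc u (Finset.mem_univ _) v (Finset.mem_univ _)
        ((SimpleGraph.fromRel_adj _ _ _).2 ⟨huv, by omega⟩) (by rw [e]))
    rwa [card_lt _ _ (by omega)] at this
  · obtain ⟨S, hS⟩ := (cov (G0 (s + 1)) (wt s)).exists_isNIndepSet_indepNum
    obtain ⟨D, c, hD, hc⟩ := dom _ _ S hS.1
    have := bad s (by omega) D c hc
    rw [hD, hS.2] at this
    nlinarith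

end Pool.Agent.Results.MP_a5c736_co.DP
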